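import Pool.Agent.Q66.Ab7

set_option autoImplicit false

namespace Pool.Agent.Results.MP_bb7674_an.EntropyRange

open Q66.Ab

/-- The polynomial `x^3 - x^2 - 1` has exactly one real root `κ`, and for every `(a,b) ∈ 𝒫` the
topological entropy `s` of the interval map of `f_{a,b}` (the growth rate of the number of maximal
intervals of monotonicity, which exists) satisfies `log κ ≤ s ≤ log ((1+√5)/2)`. The number `s` is
also the growth rate of the number of maximal intervals of continuity and monotonicity. Both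
readings `e = ±1` of the value `∞` at the point `0` are covered. -/
theorem result :
    ∃ κ : ℝ, κ ^ 3 - κ ^ 2 - 1 = 0 ∧ (∀ x : ℝ, x ^ 3 - x ^ 2 - 1 = 0 → x = κ) ∧
      ∀ e a b : ℝ, (e = 1 ∨ e = -1) → InP a b →
        ∃ s : ℝ, HasTopEntropy (ftil e a b) s ∧ HasContLapEntropy e a b s ∧
          Real.log κ ≤ s ∧ s ≤ Real.log ((1 + √5) / 2) := by
  obtain ⟨κ, hκ1, hκ2⟩ : ∃ κ ∈ Set.Icc (1 : ℝ) 2, κ ^ 3 - κ ^ 2 - 1 = 0 := by
    have hcont : ContinuousOn (fun x : ℝ => x ^ 3 - x ^ 2 - 1) (Set.Icc 1 2) := by fun_prop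
    have h := intermediate_value_Icc (show (1 : ℝ) ≤ 2 by norm_num) hcont
    obtain ⟨x, hx, hx2⟩ := h (show (0 : ℝ) ∈ Set.Icc _ _ by constructor <;> norm_num)
    exact ⟨x, hx, hx2⟩
  refine ⟨κ, hκ2, ?_, ?_⟩
  · intro x hx
    have h1 := kappa_gt hκ2
    have h2 := kappa_gt hx
    have h3 : (x - κ) * (x ^ 2 + x * κ + κ ^ 2 - x - κ) = 0 := by ring_nf; linarith
    rcases mul_eq_zero.mp h3 with h4 | h4
    · linarith
    · exfalso; nlinarith [mul_pos (sub_pos.mpr h1) (sub_pos.mpr h2)]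
  · intro e a b he h
    obtain ⟨h1, h2⟩ := h.ent_bounds hκ2
    exact ⟨_, hasTopEntropy h he, hasContLapEntropy h, h1, h2⟩

end Pool.Agent.Results.MP_bb7674_an.EntropyRange
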